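import Pool.Agent.H75.QF.Final
import Pool.Agent.H75.QG.Lift

/-!
# Quantum SETH for constant-depth circuits

For every `0 < ε ≤ 1` there is `c` such that the following holds for all large `n`, all `d ≥ 1`, all clause
widths `w` with `c * d * log₂ n ≤ w ≤ n / c` and all `m ≥ n * 2 ^ w`. The inputs are CNFs `φ` with `n`
variables and `m` clauses, each with exactly `w` literals (of distinct variables), given as `m × 2n`
incidence matrices. There is a probability distribution on pairs `(φ₀, φ₁)` of inputs such that every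
assignment violates at least `(1 - ε) m / 2 ^ w` clauses of `φ₀` (a random assignment violates `m / 2 ^ w`
clauses of any input on average) and `φ₁` is satisfiable, and such that the two are indistinguishable in
the following sense.

Let `t ≥ 1` with `t ^ (c * d) ≤ 2 ^ w`. Let `F` be a family of at most `2 ^ t` circuits of depth at most `d`
with at most `2 ^ ((1 - ε) n)` gates each (no uniformity). The gates are arbitrary functions of any number of
sources (literals, earlier gates and their negations) which are constant on the assignments with more than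
`t` true sources: for example conjunctions and disjunctions of any fan-in, arbitrary functions of `t`
sources, and thresholds up to `t`. Consider quantum algorithms (finite dimension, arbitrary unitaries, no
uniformity) which make at most `2 ^ ((1 / 2 - ε) w)` queries, in superposition, to the answers `F i φ`.
For every observer who knows `φ₀` (the algorithm `V φ₀` with initial state `χ φ₀` may depend on `φ₀` in any
way) the acceptance probabilities on `φ₀` and on `φ₁` differ by at most `1 / t` on average.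

(The distribution does not depend on `t`, `F` and the algorithms. The worst case form, for algorithms or
for verifiers with quantum certificates of unsatisfiability, is deduced in `Pool.Agent.H75.QF.Worst`.)

The definitions are in `Pool.Agent.H75.QG.Stmt`, `Pool.Agent.H75.QA.Stmt`, `Pool.Agent.H68.GP.Stmt` and
`Pool.Agent.H68.AC.Stmt`.
-/

namespace Pool.Agent.Results.MP_0f8dca_lc.ConstantDepthQuantumSETH

open Filter Pool.Agent.H68.AC Pool.Agent.H68.GP Pool.Agent.H75.QA Pool.Agent.H75.QG

theorem result :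
    ∀ ε : ℝ, 0 < ε → ε ≤ 1 → ∃ c : ℕ, ∀ᶠ n : ℕ in atTop, ∀ d w m : ℕ, 1 ≤ d →
      c * d * Nat.log 2 n ≤ w → c * w ≤ n → n * 2 ^ w ≤ m →
      ∃ (Ω : Type) (_ : Fintype Ω) (μ : Ω → ℝ) (φ₀ φ₁ : Ω → Fin m × Fin n × Bool → Bool),
        (∀ ω, 0 ≤ μ ω) ∧ ∑ ω, μ ω = 1 ∧
        (∀ ω, KCNF w (φ₀ ω) ∧ Far ε w (φ₀ ω) ∧ KCNF w (φ₁ ω) ∧ Satisfiable (φ₁ ω)) ∧
        ∀ (t : ℕ) (κ : Type) [Fintype κ] (s : ℕ) (F : κ → GCircuit (Fin m × Fin n × Bool) s t)
          (V : (Fin m × Fin n × Bool → Bool) → Verifier κ)
          (χ : ∀ φ, EuclideanSpace ℂ (Fin (V φ).dim)), 1 ≤ t → t ^ (c * d) ≤ 2 ^ w →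
          Fintype.card κ ≤ 2 ^ t → (s : ℝ) ≤ 2 ^ ((1 - ε) * n) → (∀ i, (F i).DepthLE d) →
          (∀ φ, ((V φ).T : ℝ) ≤ 2 ^ ((1 / 2 - ε) * w)) → (∀ φ, ‖χ φ‖ = 1) →
          ∑ ω, μ ω * |(V (φ₀ ω)).prob (answersG F (φ₁ ω)) (χ (φ₀ ω)) -
            (V (φ₀ ω)).prob (answersG F (φ₀ ω)) (χ (φ₀ ω))| ≤ 1 / t := by
  intro ε hε hε1
  obtain ⟨c, -, hc⟩ := Pool.Agent.H75.QF.MAINF ε hε hε1
  exact ⟨c, hc⟩

end Pool.Agent.Results.MP_0f8dca_lc.ConstantDepthQuantumSETH
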