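import Pool.Agent.H70.GS.All

/-!
# An oracle with UP not in BQP where PH is decided by BQP algorithms with errors that cannot be found
-/

set_option autoImplicit false

namespace Pool.Agent.Results.MP_0f8dca_lc.UnfindableErrors

open Filter Pool.Agent.H6.NB Pool.Agent.H70.OQ Pool.Agent.H70.GS

/-- Let `V 0, V 1, …` be oracle machines with alternating quantifiers (`V i` is a `Σ_k` machine, `k = (V i).1`;
for instance all machines of the polynomial hierarchy), let `Q 0, Q 1, …` be families of quantum query
algorithms which on inputs of length `n` make at most `C * 2 ^ ((1/2 - ε) * n)` queries of length at most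
`n ^ c + c`, and let `S 0, S 1, …` be polynomial-time quantum samplers: `S j n` makes at most `n ^ c + c`
queries of length at most `n ^ c + c`, and its output is a string whose length is between `n` and
`n ^ c + c`. Then there is an oracle `O` such that

* for every `x` there is at most one `v` with `|v| = 2 |x|` such that `O` contains the string `0 x v` (so the
language `ulang O`, which asks whether there is such a `v`, is in `UP` relative to `O`);
* every `Q j` errs on arbitrarily long inputs with respect to `ulang O` (so `UP` is not contained in `BQP`
relative to `O`, even with `2 ^ ((1/2 - ε) * n)` queries);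
* for all `i` the errors of the explicit polynomial-time quantum algorithm with acceptance probability
`yesProb O (inst (V i).2.c i x)` for the language of the machine `V i` relative to `O` cannot be found by
quantum samplers, even if they may also query a language of the polynomial hierarchy relative to `O`:
for all `i'`, `j`, `a` and all large `n` the probability that the output of `S j n`, run with the oracle `O`
and the language of `V i'` relative to `O`, is such an error is at most `1 / n ^ a`. -/
theorem result (V : ℕ → Σ k, Machine k) (Q : ℕ → List Bool → QAlg) (S : ℕ → ℕ → Samp)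
    (hQ : ∀ j, ∃ (c C : ℕ) (ε : ℝ), 0 < ε ∧ ∀ x : List Bool, (Q j x).Short (x.length ^ c + c) ∧
      ((Q j x).T : ℝ) ≤ C * 2 ^ ((1 / 2 - ε) * x.length))
    (hS : ∀ j, ∃ c : ℕ, ∀ n, (S j n).alg.Short (n ^ c + c) ∧ (S j n).alg.T ≤ n ^ c + c ∧
      ∀ b, n ≤ ((S j n).out b).length ∧ ((S j n).out b).length ≤ n ^ c + c) :
    ∃ O : List Bool → Bool, OneWit O ∧
      (∀ j m, ∃ x : List Bool, m ≤ x.length ∧ ¬ Correct (Q j x) O (ulang O) x) ∧
      ∀ i i' j a : ℕ, ∀ᶠ n : ℕ in atTop,
        (S j n).prob (joinO O ((V i').2.lang O)) (Wrong (V i).2 i O) ≤ 1 / (n : ℝ) ^ a :=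
  pf_FIN V Q S hQ hS

end Pool.Agent.Results.MP_0f8dca_lc.UnfindableErrors
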